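import Pool.Agent.Helper3_PPX.Stmts

/-!
# Squad PPX, module SCB: lower bound for the dimensions from independent monomials
-/

set_option autoImplicit false

universe u

namespace Pool.Agent.PPX.H90

open MvPolynomial Pool.Agent.PPX

theorem finite_Td (k : Type u) [Field k] (d₁ d₂ M : ℕ) : Module.Finite k (Td k d₁ d₂ M) := by
  have hfin : ({s : Fin 4 →₀ ℕ | s 0 ≤ d₁ ∧ s 1 ≤ d₂ ∧ s 2 + s 3 ≤ M}).Finite := by
    apply (Set.finite_Iic (Finsupp.equivFunOnFinite.symm ![d₁, d₂, M, M] : Fin 4 →₀ ℕ)).subset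
    rintro s ⟨h0, h1, h2⟩
    rw [Set.mem_Iic, Finsupp.le_def]
    intro i
    rw [Finsupp.equivFunOnFinite_symm_apply_apply]
    fin_cases i
    · exact h0
    · exact h1
    · show s 2 ≤ M
      omega
    · show s 3 ≤ M
      omega
  haveI := hfin.to_subtype
  exact Module.Finite.of_basis (basisRestrictSupport k
    {s : Fin 4 →₀ ℕ | s 0 ≤ d₁ ∧ s 1 ≤ d₂ ∧ s 2 + s 3 ≤ M})

section

variable {k : Type u} [Field k] {E : Type u} [Field E] [Algebra k E]

/-- the dimension of the image in `E` -/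
theorem hh_eq (v : Ideal (P4 k)) (f : Fin 4 → E) (hker : ∀ Q : P4 k, aeval f Q = 0 ↔ Q ∈ v)
    (W : Submodule k (P4 k)) :
    hh v W = Module.finrank k (W.map (aeval f : P4 k →ₐ[k] E).toLinearMap) := by
  have hlift : ∀ Q : P4 k, Q ∈ v → (aeval f : P4 k →ₐ[k] E) Q = 0 := fun Q hQ => (hker Q).2 hQ
  obtain ⟨ψ, hψ⟩ : ∃ ψ : (P4 k ⧸ v) →ₐ[k] E, ψ = Ideal.Quotient.liftₐ v (aeval f) hlift :=
    ⟨_, rfl⟩
  have h1 : ∀ Q : P4 k, ψ (Ideal.Quotient.mkₐ k v Q) = aeval f Q := by
    intro Q
    rw [hψ]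
    rfl
  have hinj : Function.Injective ψ := by
    rw [injective_iff_map_eq_zero]
    intro x hx
    obtain ⟨Q, rfl⟩ := Ideal.Quotient.mkₐ_surjective k v x
    rw [h1, hker] at hx
    exact Ideal.Quotient.eq_zero_iff_mem.2 hx
  have h2 : W.map (aeval f : P4 k →ₐ[k] E).toLinearMap =
      (W.map (Ideal.Quotient.mkₐ k v).toLinearMap).map ψ.toLinearMap := by
    rw [← Submodule.map_comp]
    have h3 : (aeval f : P4 k →ₐ[k] E).toLinearMap =
        ψ.toLinearMap ∘ₗ (Ideal.Quotient.mkₐ k v).toLinearMap :=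
      LinearMap.ext fun Q => (h1 Q).symm
    rw [h3]
  rw [h2, hh]
  exact LinearEquiv.finrank_eq (Submodule.equivMapOfInjective ψ.toLinearMap hinj _)

theorem monomial_value (f : Fin 4 → E) (e : Fin 4 → ℕ) :
    (aeval f : P4 k →ₐ[k] E) (monomial (Finsupp.equivFunOnFinite.symm e) 1) =
      f 0 ^ e 0 * f 1 ^ e 1 * f 2 ^ e 2 * f 3 ^ e 3 := by
  rw [aeval_monomial, map_one, one_mul, Finsupp.prod_fintype _ _ (fun i => pow_zero _),
    Fin.prod_univ_four]
  rfl

end

/-- the coefficients of a polynomial in three variables, written as a polynomial in the first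
variable times monomials -/
theorem coeffs_zero {k : Type u} [Field k] {a b : ℕ} (g : Fin a → Fin b → Polynomial k)
    (h : ∑ l, ∑ j, (Polynomial.aeval (X 0 : MvPolynomial (Fin 3) k) (g l j)) *
      ((X 1 : MvPolynomial (Fin 3) k) ^ (l : ℕ) * X 2 ^ (j : ℕ)) = 0) : ∀ l j, g l j = 0 := by
  intro l₀ j₀
  obtain ⟨φ, hφ⟩ : ∃ φ : MvPolynomial (Fin 3) k →ₐ[k] Polynomial (Polynomial (Polynomial k)),
      φ = aeval (![Polynomial.C (Polynomial.C Polynomial.X), Polynomial.C Polynomial.X,
        Polynomial.X] : Fin 3 → Polynomial (Polynomial (Polynomial k))) := ⟨_, rfl⟩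
  have h0 : φ (X 0) = Polynomial.C (Polynomial.C Polynomial.X) := by rw [hφ, aeval_X]; rfl
  have h1 : φ (X 1) = Polynomial.C Polynomial.X := by rw [hφ, aeval_X]; rfl
  have h2 : φ (X 2) = Polynomial.X := by rw [hφ, aeval_X]; rfl
  have h3 : ∀ p : Polynomial k, φ (Polynomial.aeval (X 0) p) =
      Polynomial.C (Polynomial.C p) := by
    intro p
    rw [← Polynomial.aeval_algHom_apply, h0]
    induction p using Polynomial.induction_on' with
    | add p q hp hq => rw [map_add, hp, hq, map_add, map_add]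
    | monomial n r =>
      rw [Polynomial.aeval_monomial, ← Polynomial.C_mul_X_pow_eq_monomial, map_mul, map_mul,
        map_pow, map_pow]
      rfl
  have h4 := congrArg φ h
  rw [map_zero, map_sum] at h4
  have h5 : ∑ l, φ (∑ j, (Polynomial.aeval (X 0 : MvPolynomial (Fin 3) k) (g l j)) *
      ((X 1 : MvPolynomial (Fin 3) k) ^ (l : ℕ) * X 2 ^ (j : ℕ))) =
      ∑ l, ∑ j, Polynomial.C (Polynomial.C (g l j) * Polynomial.X ^ (l : ℕ)) *
        Polynomial.X ^ (j : ℕ) := by
    refine Finset.sum_congr rfl fun l _ => ?_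
    rw [map_sum]
    refine Finset.sum_congr rfl fun j _ => ?_
    rw [map_mul, map_mul, map_pow, map_pow, h1, h2, h3, map_mul, map_pow]
    ring
  rw [h5] at h4
  have h6 := congrArg (fun p => (p.coeff (j₀ : ℕ)).coeff (l₀ : ℕ)) h4
  simp only [Polynomial.finsetSum_coeff, Polynomial.coeff_C_mul, Polynomial.coeff_X_pow,
    Polynomial.coeff_zero] at h6
  rw [Finset.sum_eq_single l₀] at h6
  · rw [Finset.sum_eq_single j₀] at h6
    · simpa using h6
    · intro j _ hj
      rw [if_neg (fun hh => hj (Fin.ext hh.symm)), mul_zero, Polynomial.coeff_zero]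
    · intro hh
      exact absurd (Finset.mem_univ _) hh
  · intro l _ hl
    refine Finset.sum_eq_zero fun j _ => ?_
    split_ifs
    · rw [mul_one, Polynomial.coeff_C_mul, Polynomial.coeff_X_pow,
        if_neg (fun hh => hl (Fin.ext hh.symm)), mul_zero]
    · rw [mul_zero, Polynomial.coeff_zero]
  · intro hh
    exact absurd (Finset.mem_univ _) hh

/-- SCB -/
theorem scb : ScbStmt.{u} := by
  intro k _ _ v _ E _ _ f c hG hind d₁ d₂ m n B hB hlin
  classical
  obtain ⟨y, hy⟩ : ∃ y, y = f 3 + c * f 2 := ⟨_, rfl⟩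
  obtain ⟨W, hW⟩ : ∃ W, W = (Td k d₁ d₂ (n + m)).map (aeval f : P4 k →ₐ[k] E).toLinearMap :=
    ⟨_, rfl⟩
  rw [hh_eq v f hG.ker, ← hW]
  haveI := finite_Td k d₁ d₂ (n + m)
  haveI hfinW : Module.Finite k W := by
    rw [hW]
    exact Module.Finite.map _ _
  -- `E` as an algebra over `k[c]`
  letI algE : Algebra (Polynomial k) E := (Polynomial.aeval c : Polynomial k →ₐ[k] E).toAlgebra
  have hsm : ∀ (p : Polynomial k) (x : E), p • x = Polynomial.aeval c p * x := fun p x => rfl
  haveI : IsScalarTower k (Polynomial k) E := by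
    refine IsScalarTower.of_algebraMap_eq fun r => ?_
    show algebraMap k E r = Polynomial.aeval c (algebraMap k (Polynomial k) r)
    rw [AlgHom.commutes]
  obtain ⟨bW, hbW⟩ : ∃ bW : Module.Basis (Fin (Module.finrank k W)) k W,
    bW = Module.finBasis k W := ⟨_, rfl⟩
  obtain ⟨w, hw⟩ : ∃ w : Set E, w = Set.range fun i => (bW i : E) := ⟨_, rfl⟩
  haveI hwf : Fintype w := by
    rw [hw]
    exact Set.fintypeRange _
  have hcard : Fintype.card w ≤ Module.finrank k W := by
    have h1 : Nat.card w ≤ Nat.card (Fin (Module.finrank k W)) := by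
      rw [hw]
      exact Finite.card_range_le _
    rwa [Nat.card_eq_fintype_card, Nat.card_eq_fintype_card, Fintype.card_fin] at h1
  have hWspan : ∀ x ∈ W, x ∈ Submodule.span (Polynomial k) w := by
    intro x hx
    have h1 : x ∈ Submodule.span k w := by
      have h2 := bW.sum_repr ⟨x, hx⟩
      have h3 : x = ∑ i, bW.repr ⟨x, hx⟩ i • (bW i : E) := by
        have h4 := congrArg (fun z : W => (z : E)) h2
        simp only [Submodule.coe_sum, Submodule.coe_smul] at h4
        exact h4.symm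
      rw [h3]
      refine Submodule.sum_mem _ fun i _ => Submodule.smul_mem _ _ (Submodule.subset_span ?_)
      rw [hw]
      exact ⟨i, rfl⟩
    exact Submodule.span_le_restrictScalars k (Polynomial k) w h1
  -- the family
  obtain ⟨F, hF⟩ : ∃ F : (Fin (d₁ + 1) × Fin (n + 1)) × B → E, F = fun q =>
    f 0 ^ (q.1.1 : ℕ) * y ^ (q.1.2 : ℕ) * (f 1 ^ q.2.1.1 * f 2 ^ q.2.1.2) := ⟨_, rfl⟩
  have hFspan : Set.range F ≤ (Submodule.span (Polynomial k) w : Set E) := by
    rintro _ ⟨⟨⟨l, j⟩, p⟩, rfl⟩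
    have h1 : F ((l, j), p) = ∑ i ∈ Finset.range ((j : ℕ) + 1),
        ((Polynomial.X : Polynomial k) ^ ((j : ℕ) - i) * ((j : ℕ).choose i : Polynomial k)) •
          (f 0 ^ (l : ℕ) * f 1 ^ p.1.1 * f 2 ^ (p.1.2 + ((j : ℕ) - i)) * f 3 ^ i) := by
      rw [hF, hy]
      simp only
      rw [add_pow, Finset.mul_sum, Finset.sum_mul]
      refine Finset.sum_congr rfl fun i _ => ?_
      rw [hsm, map_mul, map_pow, Polynomial.aeval_X, map_natCast, mul_pow, pow_add]
      ring
    rw [h1]
    refine Submodule.sum_mem _ fun i hi => Submodule.smul_mem _ _ (hWspan _ ?_)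
    rw [hW, Submodule.mem_map]
    refine ⟨monomial (Finsupp.equivFunOnFinite.symm
      ![(l : ℕ), p.1.1, p.1.2 + ((j : ℕ) - i), i]) 1, ?_, ?_⟩
    · rw [Td, monomial_mem_restrictSupport]
      left
      have h2 := Finset.mem_range.1 hi
      have h3 := hB p.1 p.2
      have h4 := l.2
      have h5 := j.2
      refine ⟨?_, ?_, ?_⟩
      · show (l : ℕ) ≤ d₁
        omega
      · show p.1.1 ≤ d₂
        exact h3.1
      · show p.1.2 + ((j : ℕ) - i) + i ≤ n + m
        omega
    · exact monomial_value f _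
  -- independence
  have hFlin : LinearIndependent (Polynomial k) F := by
    rw [Fintype.linearIndependent_iff]
    intro g hg
    -- group by `B`
    obtain ⟨K, hK⟩ : ∃ K, K = IntermediateField.adjoin k {c, f 0, f 3 + c * f 2} := ⟨_, rfl⟩
    have hcK : c ∈ K := by
      rw [hK]
      exact IntermediateField.subset_adjoin _ _ (by simp)
    have hxK : f 0 ∈ K := by
      rw [hK]
      exact IntermediateField.subset_adjoin _ _ (by simp)
    have hyK : y ∈ K := by
      rw [hK, hy]
      exact IntermediateField.subset_adjoin _ _ (by simp)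
    rw [← hK] at hlin
    have haev : ∀ p : Polynomial k, Polynomial.aeval c p ∈ K := by
      intro p
      have h1 : Polynomial.aeval c p = ((Polynomial.aeval (⟨c, hcK⟩ : K) p : K) : E) := by
        have := Polynomial.aeval_algebraMap_apply E (⟨c, hcK⟩ : K) p
        exact this
      rw [h1]
      exact (Polynomial.aeval (⟨c, hcK⟩ : K) p).2
    have hκ : ∀ b : B, (∑ l, ∑ j, Polynomial.aeval c (g ((l, j), b)) *
        (f 0 ^ (l : ℕ) * y ^ (j : ℕ))) ∈ K := by
      intro b
      refine sum_mem fun l _ => sum_mem fun j _ => mul_mem (haev _)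
        (mul_mem (pow_mem hxK _) (pow_mem hyK _))
    have hsum : ∑ b : B, (⟨_, hκ b⟩ : K) • (f 1 ^ b.1.1 * f 2 ^ b.1.2) = 0 := by
      rw [← hg, Fintype.sum_prod_type_right]
      refine Finset.sum_congr rfl fun b _ => ?_
      rw [Fintype.sum_prod_type]
      show (∑ l, ∑ j, Polynomial.aeval c (g ((l, j), b)) *
        (f 0 ^ (l : ℕ) * y ^ (j : ℕ))) * (f 1 ^ b.1.1 * f 2 ^ b.1.2) = _
      rw [Finset.sum_mul]
      refine Finset.sum_congr rfl fun l _ => ?_
      rw [Finset.sum_mul]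
      refine Finset.sum_congr rfl fun j _ => ?_
      rw [hsm, hF]
      ring
    have h1 := Fintype.linearIndependent_iff.1 hlin _ hsum
    intro ⟨⟨l, j⟩, b⟩
    have h2 : (∑ l, ∑ j, Polynomial.aeval c (g ((l, j), b)) *
        (f 0 ^ (l : ℕ) * y ^ (j : ℕ))) = 0 := congrArg (fun z : K => (z : E)) (h1 b)
    have h3 : (aeval ![c, f 0, f 3 + c * f 2] : MvPolynomial (Fin 3) k →ₐ[k] E)
        (∑ l, ∑ j, (Polynomial.aeval (X 0 : MvPolynomial (Fin 3) k) (g ((l, j), b))) *
          ((X 1 : MvPolynomial (Fin 3) k) ^ ((l : Fin (d₁ + 1)) : ℕ) *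
            X 2 ^ ((j : Fin (n + 1)) : ℕ))) = 0 := by
      rw [← h2, map_sum]
      refine Finset.sum_congr rfl fun l _ => ?_
      rw [map_sum]
      refine Finset.sum_congr rfl fun j _ => ?_
      rw [map_mul, map_mul, map_pow, map_pow, aeval_X, aeval_X, ← Polynomial.aeval_algHom_apply,
        aeval_X, hy]
      rfl
    have h4 := (algebraicIndependent_iff.1 hind) _ h3
    exact coeffs_zero (fun l j => g ((l, j), b)) h4 l j
  have h1 := linearIndependent_le_span_aux' F hFlin w hFspan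
  rw [Fintype.card_prod, Fintype.card_prod, Fintype.card_fin, Fintype.card_fin,
    Fintype.card_coe] at h1
  exact h1.trans hcard

end Pool.Agent.PPX.H90
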