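import Pool.Agent.Helper3_PPX.Stmts

/-!
# Squad PPX, module SDA: consequences of `Big`
-/

set_option autoImplicit false

universe u

namespace Pool.Agent.PPX.H90

open MvPolynomial Pool.Agent.PPX

variable {k : Type u} [Field k]

/-- the restriction of `sb c Q` to the line -/
noncomputable def ls (a b s t c : k) : P4 k →ₐ[k] Polynomial k :=
  aeval ![Polynomial.C a, Polynomial.C b, Polynomial.C c,
    Polynomial.C t + Polynomial.C (c - s) * Polynomial.X]

theorem lin_sb (a b s t c : k) (Q : P4 k) : lin a b s t (sb c Q) = ls a b s t c Q := by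
  have h : (lin a b s t).comp (sb c) = ls a b s t c := by
    apply MvPolynomial.algHom_ext
    intro i
    fin_cases i
    · simp [lin, sb, ls]
    · simp [lin, sb, ls]
    · simp [lin, sb, ls]
    · simp [lin, sb, ls]
      ring
  exact DFunLike.congr_fun h Q

theorem ls_monomial (a b s t c : k) (e : Fin 4 →₀ ℕ) (r : k) :
    (ls a b s t c (monomial e r)).natDegree ≤ e 3 := by
  rw [ls, aeval_monomial, Finsupp.prod_fintype _ _ (fun i => pow_zero _), Fin.prod_univ_four]
  have h0 : ((![Polynomial.C a, Polynomial.C b, Polynomial.C c,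
      Polynomial.C t + Polynomial.C (c - s) * Polynomial.X] : Fin 4 → Polynomial k) 0) =
        Polynomial.C a := rfl
  have h1 : ((![Polynomial.C a, Polynomial.C b, Polynomial.C c,
      Polynomial.C t + Polynomial.C (c - s) * Polynomial.X] : Fin 4 → Polynomial k) 1) =
        Polynomial.C b := rfl
  have h2 : ((![Polynomial.C a, Polynomial.C b, Polynomial.C c,
      Polynomial.C t + Polynomial.C (c - s) * Polynomial.X] : Fin 4 → Polynomial k) 2) =
        Polynomial.C c := rfl
  have h3 : ((![Polynomial.C a, Polynomial.C b, Polynomial.C c,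
      Polynomial.C t + Polynomial.C (c - s) * Polynomial.X] : Fin 4 → Polynomial k) 3) =
        Polynomial.C t + Polynomial.C (c - s) * Polynomial.X := rfl
  rw [h0, h1, h2, h3]
  have h4 : algebraMap k (Polynomial k) r * (Polynomial.C a ^ e 0 * Polynomial.C b ^ e 1 *
      Polynomial.C c ^ e 2 * (Polynomial.C t + Polynomial.C (c - s) * Polynomial.X) ^ e 3) =
      Polynomial.C (r * (a ^ e 0 * b ^ e 1 * c ^ e 2)) *
        (Polynomial.C t + Polynomial.C (c - s) * Polynomial.X) ^ e 3 := by
    rw [Polynomial.algebraMap_eq]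
    simp only [map_mul, map_pow]
    ring
  rw [h4]
  refine (Polynomial.natDegree_C_mul_le _ _).trans ?_
  refine (Polynomial.natDegree_pow_le).trans ?_
  have h5 : (Polynomial.C t + Polynomial.C (c - s) * Polynomial.X : Polynomial k).natDegree ≤ 1 := by
    rw [add_comm]
    exact Polynomial.natDegree_linear_le
  calc e 3 * _ ≤ e 3 * 1 := Nat.mul_le_mul_left _ h5
    _ = e 3 := mul_one _

theorem ls_natDegree (a b s t c : k) (Q : P4 k) :
    (ls a b s t c Q).natDegree ≤ degreeOf 3 Q := by
  conv_lhs => rw [Q.as_sum, map_sum]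
  refine Polynomial.natDegree_sum_le_of_forall_le _ _ fun e he => ?_
  exact (ls_monomial a b s t c e _).trans (monomial_le_degreeOf 3 he)

theorem ls_pderiv_natDegree (a b s t c : k) (i : Fin 4) (Q : P4 k) :
    (ls a b s t c (pderiv i Q)).natDegree ≤ degreeOf 3 Q := by
  conv_lhs => rw [Q.as_sum, map_sum, map_sum]
  refine Polynomial.natDegree_sum_le_of_forall_le _ _ fun e he => ?_
  rw [pderiv_monomial]
  refine (ls_monomial a b s t c _ _).trans (le_trans ?_ (monomial_le_degreeOf 3 he))
  rw [Finsupp.tsub_apply]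
  exact Nat.sub_le _ _

theorem pderiv_sb (c : k) (i : Fin 4) (hi : i = 0 ∨ i = 1) (Q : P4 k) :
    pderiv i (sb c Q) = sb c (pderiv i Q) := by
  induction Q using MvPolynomial.induction_on with
  | C r =>
    have h : sb c (C r) = (C r : P4 k) := by
      rw [← MvPolynomial.algebraMap_eq, AlgHom.commutes]
    rw [h, pderiv_C, map_zero]
  | add P Q hP hQ => rw [map_add, map_add, map_add, map_add, hP, hQ]
  | mul_X P j hP =>
    rw [map_mul, Derivation.leibniz, Derivation.leibniz, map_add, smul_eq_mul, smul_eq_mul,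
      smul_eq_mul, smul_eq_mul, map_mul, map_mul, hP]
    have h : pderiv i (sb c (X j)) = sb c (pderiv i (X j)) := by
      rcases hi with rfl | rfl
      · fin_cases j
        · simp [sb]
        · simp [sb, pderiv_X]
        · simp [sb, pderiv_X]
        · simp [sb, pderiv_X]
      · fin_cases j
        · simp [sb, pderiv_X]
        · simp [sb]
        · simp [sb, pderiv_X]
        · simp [sb, pderiv_X]
    rw [h]

theorem pla_sb (a b c : k) (Q : P4 k) : pla a b (sb c Q) = sb c (pla a b Q) := by
  have hC : ∀ (f : P4 k →ₐ[k] P4 k) (r : k), f (C r) = (C r : P4 k) := fun f r => by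
    rw [← MvPolynomial.algebraMap_eq, AlgHom.commutes]
  have h : (pla a b).comp (sb c) = (sb c).comp (pla a b) := by
    apply MvPolynomial.algHom_ext
    intro i
    rw [AlgHom.comp_apply, AlgHom.comp_apply]
    fin_cases i
    · show pla a b (sb c (X 0)) = sb c (pla a b (X 0))
      rw [sb, pla, aeval_X, aeval_X]
      show aeval _ (X 0) = aeval _ (C a)
      rw [aeval_X]
      show (C a : P4 k) = _
      exact (hC _ a).symm
    · show pla a b (sb c (X 1)) = sb c (pla a b (X 1))
      rw [sb, pla, aeval_X, aeval_X]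
      show aeval _ (X 1) = aeval _ (C b)
      rw [aeval_X]
      show (C b : P4 k) = _
      exact (hC _ b).symm
    · show pla a b (sb c (X 2)) = sb c (pla a b (X 2))
      rw [sb, pla, aeval_X, aeval_X]
      show aeval _ (C c) = aeval _ (X 2)
      rw [aeval_X]
      show _ = (C c : P4 k)
      exact (hC _ c)
    · show pla a b (sb c (X 3)) = sb c (pla a b (X 3))
      rw [sb, pla, aeval_X, aeval_X]
      show aeval _ (X 3 + C c * X 2) = aeval _ (X 3)
      rw [aeval_X, map_add, map_mul, aeval_X, aeval_X]
      show X 3 + aeval _ (C c) * X 2 = (X 3 + C c * X 2 : P4 k)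
      rw [hC]
  exact DFunLike.congr_fun h Q

theorem eval_ls (a b s t c x : k) (Q : P4 k) :
    (ls a b s t c Q).eval x = eval ![a, b, c, t + (c - s) * x] Q := by
  have h : ((Polynomial.aeval x : Polynomial k →ₐ[k] k).comp (ls a b s t c)) =
      (aeval ![a, b, c, t + (c - s) * x] : P4 k →ₐ[k] k) := by
    apply MvPolynomial.algHom_ext
    intro i
    rw [AlgHom.comp_apply, ls, aeval_X, aeval_X]
    fin_cases i
    · show Polynomial.aeval x (Polynomial.C a) = a
      rw [Polynomial.aeval_C]
      rfl
    · show Polynomial.aeval x (Polynomial.C b) = b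
      rw [Polynomial.aeval_C]
      rfl
    · show Polynomial.aeval x (Polynomial.C c) = c
      rw [Polynomial.aeval_C]
      rfl
    · show Polynomial.aeval x (Polynomial.C t + Polynomial.C (c - s) * Polynomial.X) =
        t + (c - s) * x
      simp
  have h1 := DFunLike.congr_fun h Q
  rw [AlgHom.comp_apply, Polynomial.coe_aeval_eq_eval] at h1
  rw [h1, aeval_eq_eval]

theorem eval_pla (a b : k) (p : Fin 4 → k) (Q : P4 k) :
    eval p (pla a b Q) = eval ![a, b, p 2, p 3] Q := by
  have h : ((aeval p : P4 k →ₐ[k] k).comp (pla a b)) =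
      (aeval ![a, b, p 2, p 3] : P4 k →ₐ[k] k) := by
    apply MvPolynomial.algHom_ext
    intro i
    rw [AlgHom.comp_apply, pla, aeval_X, aeval_X]
    fin_cases i
    · show aeval p (C a) = a
      rw [aeval_C]
      rfl
    · show aeval p (C b) = b
      rw [aeval_C]
      rfl
    · show aeval p (X 2) = p 2
      rw [aeval_X]
    · show aeval p (X 3) = p 3
      rw [aeval_X]
  have h1 := DFunLike.congr_fun h Q
  rw [AlgHom.comp_apply, aeval_eq_eval, aeval_eq_eval] at h1
  exact h1

/-- the polynomial `c ↦ Q (a, b, c, y)` -/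
theorem eval_third (a b y c : k) (Q : P4 k) :
    ((aeval ![Polynomial.C a, Polynomial.C b, Polynomial.X, Polynomial.C y] Q :
      Polynomial k)).eval c = eval ![a, b, c, y] Q := by
  have h : ((Polynomial.aeval c : Polynomial k →ₐ[k] k).comp
      (aeval ![Polynomial.C a, Polynomial.C b, Polynomial.X, Polynomial.C y] :
        P4 k →ₐ[k] Polynomial k)) = (aeval ![a, b, c, y] : P4 k →ₐ[k] k) := by
    apply MvPolynomial.algHom_ext
    intro i
    rw [AlgHom.comp_apply, aeval_X, aeval_X]
    fin_cases i
    · show Polynomial.aeval c (Polynomial.C a) = a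
      rw [Polynomial.aeval_C]
      rfl
    · show Polynomial.aeval c (Polynomial.C b) = b
      rw [Polynomial.aeval_C]
      rfl
    · show Polynomial.aeval c (Polynomial.X) = c
      rw [Polynomial.aeval_X]
    · show Polynomial.aeval c (Polynomial.C y) = y
      rw [Polynomial.aeval_C]
      rfl
  have h1 := DFunLike.congr_fun h Q
  rw [AlgHom.comp_apply, Polynomial.coe_aeval_eq_eval] at h1
  rw [h1, aeval_eq_eval]

/-- a polynomial which vanishes outside one point is zero -/
theorem eq_zero_of_eval [Infinite k] (p : Polynomial k) (s : k)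
    (h : ∀ c, c ≠ s → p.eval c = 0) : p = 0 := by
  by_contra hp
  have h1 : (Set.univ \ {s} : Set k) ⊆ {x | p.IsRoot x} := by
    intro c hc
    exact h c (fun hh => hc.2 hh)
  have h2 : (Set.univ \ {s} : Set k).Infinite :=
    Set.infinite_univ.sdiff (Set.finite_singleton s)
  exact h2 ((Polynomial.finite_setOf_isRoot hp).subset h1)

/-- SDA -/
theorem sda : SdaStmt.{u} := by
  intro k _ _ N₁ N₂ a s b t K₀ M₀ v D hS δ C hC hδ i j hB
  have h0 : ∀ c : k, ls (a i) (b j) (s i) (t j) c C = 0 := by
    intro c
    apply hB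
    · rw [← lin_sb]
      exact hS.line _ (hC c) i j
    · exact (ls_natDegree _ _ _ _ _ _).trans (hδ.trans (Nat.le_succ δ))
  have h1 : ∀ c y : k, eval ![a i, b j, c, y] C = 0 := by
    intro c y
    rw [← eval_third]
    have h2 : (aeval ![Polynomial.C (a i), Polynomial.C (b j), Polynomial.X, Polynomial.C y] C :
        Polynomial k) = 0 := by
      apply eq_zero_of_eval _ (s i)
      intro c' hc'
      rw [eval_third]
      have h3 := eval_ls (a i) (b j) (s i) (t j) c' ((c' - s i)⁻¹ * (y - t j)) C
      rw [h0 c', Polynomial.eval_zero] at h3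
      have h4 : c' - s i ≠ 0 := sub_ne_zero.2 hc'
      have h5 : t j + (c' - s i) * ((c' - s i)⁻¹ * (y - t j)) = y := by
        rw [← mul_assoc, mul_inv_cancel₀ h4, one_mul]
        ring
      rw [h5] at h3
      exact h3.symm
    rw [h2, Polynomial.eval_zero]
  have hpla : pla (a i) (b j) C = 0 := by
    apply MvPolynomial.funext
    intro p
    rw [eval_pla, h1, map_zero]
  refine ⟨hpla, fun c => ?_⟩
  have h2 := hS.first _ (hC c) i j (by rw [pla_sb, hpla, map_zero])
  rw [pderiv_sb c 0 (Or.inl rfl), pderiv_sb c 1 (Or.inr rfl), lin_sb, lin_sb] at h2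
  have h3 := hB _ h2 (by
    refine (Polynomial.natDegree_add_le _ _).trans (max_le ?_ ?_)
    · refine (Polynomial.natDegree_mul_le).trans ?_
      have := ls_pderiv_natDegree (a i) (b j) (s i) (t j) c 0 C
      have h4 : (Polynomial.X : Polynomial k).natDegree ≤ 1 := Polynomial.natDegree_X_le
      omega
    · have := ls_pderiv_natDegree (a i) (b j) (s i) (t j) c 1 C
      omega)
  have h4 := congrArg (Polynomial.eval 0) h3
  rw [Polynomial.eval_add, Polynomial.eval_mul, Polynomial.eval_X, zero_mul, zero_add,
    Polynomial.eval_zero, eval_ls] at h4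
  rw [mul_zero, add_zero] at h4
  exact h4

end Pool.Agent.PPX.H90
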